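import Pool.Agent.Lib.MP_a38b16_an.NC.Main

/-!
For every coupling above the geometric mean the Nehari-type set is not a natural constraint.
-/

set_option autoImplicit false

namespace Pool.Agent.Results.MP_a38b16_an.ConstraintFails

open Pool.Agent.Lib.MP_a38b16_an.NC

theorem result (μ₁ μ₂ β : ℝ) (hμ₁ : 0 < μ₁) (hμ₂ : 0 < μ₂) (hβ : √(μ₁ * μ₂) < β) :
    ∃ a b l₁ l₂ : ℝ, a < b ∧ 0 ≤ l₁ ∧ 0 ≤ l₂ ∧ ∃ u v : H10 a b,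
      IsConstrainedCritical l₁ l₂ μ₁ μ₂ β u v ∧
        ∃ φ ψ : H10 a b, dE l₁ l₂ μ₁ μ₂ β u v φ ψ ≠ 0 :=
  main μ₁ μ₂ β hμ₁ hμ₂ hβ

end Pool.Agent.Results.MP_a38b16_an.ConstraintFails
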