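import Pool.Agent.Lib.MP_a38b16_an.Main

/-!
Negative answer: for `N = 1`, `Ω = ℝ` there are admissible parameters with `β ≥ √(μ₁ μ₂)` and a
minimizer of the energy on the Nehari-type set which is not a weak solution of the system.
-/

namespace Pool.Agent.Results.MP_a38b16_an.NotNatural

open Pool.Agent.Lib.MP_a38b16_an

theorem result : ∃ l₁ l₂ μ₁ μ₂ β : ℝ, 0 < l₁ ∧ 0 < l₂ ∧ 0 < μ₁ ∧ 0 < μ₂ ∧ √(μ₁ * μ₂) ≤ β ∧
    ∃ u v : H10, InNehari l₁ l₂ μ₁ μ₂ β u v ∧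
      (∀ u' v' : H10, InNehari l₁ l₂ μ₁ μ₂ β u' v' →
        energy l₁ l₂ μ₁ μ₂ β u v ≤ energy l₁ l₂ μ₁ μ₂ β u' v') ∧
      ¬ IsWeakSolution l₁ l₂ μ₁ μ₂ β u v := by
  refine ⟨1, 5, 2, 32, 8, by norm_num, by norm_num, by norm_num, by norm_num, ?_,
    W (3 / 5), W (2 / 5), W_mem, fun u' v' h => ?_, not_solution⟩
  · rw [Real.sqrt_le_iff]
    norm_num
  · rw [W_energy]
    exact energy_lower h

end Pool.Agent.Results.MP_a38b16_an.NotNatural
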