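import Pool.Agent.Lib.MP_a38b16_an.SMain

/-!
Positive answer in the whole open range `β > √(μ₁ μ₂)`: for `1 ≤ N ≤ 3` and every open set
`Ω ⊆ ℝ^N`, every minimizer of the energy on the Nehari-type set is a weak solution of the system.
-/

namespace Pool.Agent.Results.MP_a38b16_an.StrictRange

open Pool.Agent.Lib.MP_a38b16_an.S

theorem result (N : ℕ) (hN1 : 1 ≤ N) (hN3 : N ≤ 3) (Ω : Set (E N)) (hΩ : IsOpen Ω)
    (l₁ l₂ μ₁ μ₂ β : ℝ)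
    (hl : (Ω = Set.univ ∧ 0 < l₁ ∧ 0 < l₂) ∨ (-lam1 Ω < l₁ ∧ -lam1 Ω < l₂))
    (hμ₁ : 0 < μ₁) (hμ₂ : 0 < μ₂) (hβ : √(μ₁ * μ₂) < β) (u v : H10 Ω)
    (h : InNehari l₁ l₂ μ₁ μ₂ β u v)
    (hmin : ∀ u' v' : H10 Ω, InNehari l₁ l₂ μ₁ μ₂ β u' v' →
      energy l₁ l₂ μ₁ μ₂ β u v ≤ energy l₁ l₂ μ₁ μ₂ β u' v') :
    IsWeakSolution l₁ l₂ μ₁ μ₂ β u v := by
  have h0 : 0 ≤ lam1 Ω := by
    refine Real.sInf_nonneg ?_
    rintro r ⟨z, -, rfl⟩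
    exact div_nonneg (MeasureTheory.integral_nonneg fun x => by positivity)
      (MeasureTheory.integral_nonneg fun x => by positivity)
  rcases hl with ⟨-, h1, h2⟩ | ⟨h1, h2⟩
  · exact main hN1 hN3 hΩ (by linarith) (by linarith) hμ₁ hμ₂ hβ h hmin
  · exact main hN1 hN3 hΩ h1 h2 hμ₁ hμ₂ hβ h hmin

end Pool.Agent.Results.MP_a38b16_an.StrictRange
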